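import Mathlib
import Pool.Agent.Lib.H38I.AS
import Pool.Agent.Lib.H38H.CLJ5
import Pool.Agent.Lib.H38I.VOMain
import Pool.Agent.Lib.H38I.B22
import Pool.Agent.Lib.H38H.AU.Main
import Pool.Agent.Lib.H38H.IN.F5
import Pool.Agent.Lib.H38H.L15
import Pool.Agent.Lib.H38H.Q.Q25

/-!
MP_35f824 Q1, own theorem: NHB(n)/NH(n) tends to 1, with the rate 1 - NHB(n)/NH(n) = O(1/sqrt n).
-/

set_option autoImplicit false

namespace Pool.Agent.Results.MP_35f824_co.BridgedShare

open Filter Topology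

/-- every vertex has exactly three neighbours -/
def IsCubic {V : Type} (G : SimpleGraph V) : Prop := ∀ v : V, (G.neighborSet v).ncard = 3

/-- some cycle of `G` passes through all the vertices -/
def HasHamiltonCycle {V : Type} (G : SimpleGraph V) : Prop :=
  ∃ (a : V) (p : G.Walk a a), p.IsCycle ∧ ∀ v : V, v ∈ p.support

/-- the removal of some edge disconnects `G` -/
def HasBridge {V : Type} (G : SimpleGraph V) : Prop :=
  ∃ e ∈ G.edgeSet, ¬ (G.deleteEdges {e}).Connected

/-- the isomorphism class of a graph `G` with the vertices `0, ..., N - 1` -/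
def isoClass {N : ℕ} (G : SimpleGraph (Fin N)) : Set (SimpleGraph (Fin N)) :=
  {H | Nonempty (G ≃g H)}

/-- the number of isomorphism classes of the graphs with `N` vertices that have the property `Q` -/
noncomputable def numClasses (N : ℕ) (Q : SimpleGraph (Fin N) → Prop) : ℕ :=
  (isoClass '' {G : SimpleGraph (Fin N) | Q G}).ncard

/-- `NH(n)`: connected cubic graphs on `2n` vertices without Hamiltonian cycle, up to isomorphism -/
noncomputable def NH (n : ℕ) : ℕ :=
  numClasses (2 * n) (fun G => G.Connected ∧ IsCubic G ∧ ¬ HasHamiltonCycle G)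

/-- `NHB(n)`: connected cubic graphs on `2n` vertices without Hamiltonian cycle and with a bridge,
up to isomorphism -/
noncomputable def NHB (n : ℕ) : ℕ :=
  numClasses (2 * n) (fun G => G.Connected ∧ IsCubic G ∧ ¬ HasHamiltonCycle G ∧ HasBridge G)

theorem numClasses_eq (N : ℕ) (Q : SimpleGraph (Fin N) → Prop) :
    numClasses N Q = Nat.card (Quot (fun G H : {G : SimpleGraph (Fin N) // Q G} =>
      Nonempty (SimpleGraph.Iso G.1 H.1))) := by
  have hcls : ∀ G H : SimpleGraph (Fin N), Nonempty (SimpleGraph.Iso G H) → isoClass G = isoClass H := by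
    rintro G H ⟨f⟩
    ext K
    constructor
    · rintro ⟨g⟩
      exact ⟨f.symm.trans g⟩
    · rintro ⟨g⟩
      exact ⟨f.trans g⟩
  unfold numClasses
  rw [← Nat.card_coe_set_eq]
  symm
  refine Nat.card_congr (Equiv.ofBijective
    (Quot.lift (fun G : {G : SimpleGraph (Fin N) // Q G} =>
      (⟨isoClass G.1, ⟨G.1, G.2, rfl⟩⟩ : (isoClass '' {G : SimpleGraph (Fin N) | Q G} : Set _)))
      (fun G H h => Subtype.ext (hcls G.1 H.1 h))) ⟨?_, ?_⟩)
  · intro x y
    refine Quot.induction_on₂ x y ?_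
    intro G H h
    have h1 : isoClass G.1 = isoClass H.1 := congrArg Subtype.val h
    have h2 : H.1 ∈ isoClass G.1 := by
      rw [h1]
      exact ⟨SimpleGraph.Iso.refl⟩
    exact Quot.sound h2
  · rintro ⟨c, G, hG, rfl⟩
    exact ⟨Quot.mk _ ⟨G, hG⟩, rfl⟩

theorem ham_iff {n : ℕ} (G : SimpleGraph (Fin (2 * n))) :
    HasHamiltonCycle G ↔ G.IsHamiltonian := by
  constructor
  · rintro ⟨a, p, hp, hv⟩ _
    refine ⟨a, p, ?_⟩
    rw [SimpleGraph.Walk.isHamiltonianCycle_iff_isCycle_and_support_count_tail_eq_one]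
    refine ⟨hp, fun v => List.count_eq_one_of_mem hp.support_nodup ?_⟩
    rcases (SimpleGraph.Walk.mem_support_iff p).1 (hv v) with h | h
    · rw [h]
      exact SimpleGraph.Walk.end_mem_tail_support hp.not_nil
    · exact h
  · intro h
    obtain ⟨a, p, hp⟩ := h (by rw [Fintype.card_fin]; omega)
    exact ⟨a, p, hp.isCycle, hp.mem_support⟩

theorem bridge_iff {V : Type} {G : SimpleGraph V} (hG : G.Connected) :
    HasBridge G ↔ ∃ e, G.IsBridge e := by
  constructor
  · rintro ⟨e, he, hd⟩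
    refine ⟨e, ?_⟩
    induction e with | h u v
    by_contra hb
    exact hd (hG.connected_delete_edge_of_not_isBridge hb)
  · rintro ⟨e, he⟩
    refine ⟨e, ?_, ?_⟩
    · induction e with | h u v
      exact (SimpleGraph.mem_edgeSet G).2 (he.reachable_iff_adj.1 (hG.preconnected u v))
    · induction e with | h u v
      intro hc
      exact he (hc.preconnected u v)

theorem NH_eq (n : ℕ) : NH n * (2 * n).factorial = H38H.cA (2 * n) (H38H.QN (V := Fin (2 * n))) := by
  have h : NH n = numClasses (2 * n) (H38H.QN (V := Fin (2 * n))) := by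
    unfold NH
    have hQ : (fun G : SimpleGraph (Fin (2 * n)) =>
        G.Connected ∧ IsCubic G ∧ ¬ HasHamiltonCycle G) = H38H.QN := by
      funext G
      rw [ham_iff]
      rfl
    rw [hQ]
  rw [h, numClasses_eq, H38H.classes_mul _ _ H38H.isoInv_QN]

theorem NHB_eq (n : ℕ) : NHB n * (2 * n).factorial = H38H.cA (2 * n) (H38H.QB (V := Fin (2 * n))) := by
  have h : NHB n = numClasses (2 * n) (H38H.QB (V := Fin (2 * n))) := by
    unfold NHB
    have hQ : (fun G : SimpleGraph (Fin (2 * n)) =>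
        G.Connected ∧ IsCubic G ∧ ¬ HasHamiltonCycle G ∧ HasBridge G) = H38H.QB := by
      funext G
      rw [ham_iff]
      apply propext
      constructor
      · rintro ⟨h1, h2, h3, h4⟩
        exact ⟨h1, h2, h3, (bridge_iff h1).1 h4⟩
      · rintro ⟨h1, h2, h3, h4⟩
        exact ⟨h1, h2, h3, (bridge_iff h1).2 h4⟩
    rw [hQ]
  rw [h, numClasses_eq, H38H.classes_mul _ _ H38H.isoInv_QB]

/-- the analytic input: for all large `n` the number of pairs (graph, automorphism) of the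
bridgeless graphs is at most `K / sqrt (2 n)` times the one of the graphs with a bridge, which is
positive -/
theorem core : ∃ K : ℝ, ∃ n₀ : ℕ, ∀ n : ℕ, n₀ ≤ n →
    0 < (H38H.cA (2 * n) (H38H.QB (V := Fin (2 * n))) : ℝ) ∧
    (H38H.cA (2 * n) (H38H.Bad (V := Fin (2 * n))) : ℝ) ≤
      K / Real.sqrt (2 * n) * (H38H.cA (2 * n) (H38H.QB (V := Fin (2 * n))) : ℝ) := by
  have p0 : H38H.SlotTheorem := H38H.slotTheorem_of H38H.phase2
  have p1 : H38H.PropP := H38H.IN.propP_of' p0
  have p2 : H38H.TheoremH := H38H.VO.Own.theoremH_of_VO p1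
  obtain ⟨C1, N1, h1⟩ : H38H.FewBad := H38H.CL.fewBad_of p2 H38H.firstMoment
  obtain ⟨c, hc, N2, h2⟩ : H38H.ManyBridged := H38H.Own.manyBridged_of H38H.firstMoment
  obtain ⟨C3, N3, h3⟩ := H38H.fewAut
  obtain ⟨C4, N4, h4⟩ := H38H.Own.firstMomentAut 30
  set K : ℝ := (((Nat.factorial 20 + 1 : ℕ) : ℝ) * |C1| + |C3| + |C4|) / c with hK
  refine ⟨K, 1 + N1 + N2 + N3 + N4, ?_⟩
  intro n hn
  have hlow : c * H38H.X (2 * n) / ((2 * n : ℕ) : ℝ) ^ 2 ≤
      (H38H.cA (2 * n) (H38H.QB (V := Fin (2 * n))) : ℝ) := by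
    refine (h2 (2 * n) (by omega) (even_two_mul n)).trans ?_
    have := H38H.cA_QB (2 * n)
    exact_mod_cast this
  constructor
  · refine lt_of_lt_of_le ?_ hlow
    have h0 : 0 < n := by omega
    have := H38H.X_pos (2 * n)
    positivity
  · have e1 := h1 (2 * n) (by omega) (even_two_mul n)
    have e3 := h3 (2 * n) (by omega) (even_two_mul n)
    have e4 := h4 (2 * n) (by omega) (even_two_mul n)
    have e5 := H38H.cA_Bad H38H.Own.fewSmallAut (2 * n)
    have e6 := H38H.arith_top ((Nat.factorial 20 + 1 : ℕ) : ℝ) C1 C3 C4 c (H38H.X (2 * n))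
      (H38H.cA (2 * n) (H38H.QB (V := Fin (2 * n))) : ℝ) _ _ _ (2 * n)
      (by omega) (Nat.cast_nonneg _) hc (H38H.X_pos _) e1 e3 e4 hlow
    have e7 := (Nat.cast_le (α := ℝ)).2 e5
    refine le_trans e7 ?_
    push_cast at e6 ⊢
    refine le_trans (le_of_eq ?_) (e6.trans (le_of_eq ?_))
    · ring
    · rw [hK]
      push_cast
      ring

/-- Q1 of MP_35f824 with a rate: `NHB(n)/NH(n)` tends to 1, and
`NH(n) - NHB(n) ≤ (C / sqrt n) NH(n)` for every `n ≥ 1`. -/
theorem result :
    Tendsto (fun n : ℕ => (NHB n : ℝ) / (NH n : ℝ)) atTop (𝓝 1) ∧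
    ∃ C : ℝ, ∀ n : ℕ, 1 ≤ n → (NH n : ℝ) - (NHB n : ℝ) ≤ C / Real.sqrt n * (NH n : ℝ) := by
  obtain ⟨K, n₀, hcore⟩ := core
  have hsplit : ∀ n : ℕ, (NH n : ℝ) * ((2 * n).factorial : ℝ) =
      (NHB n : ℝ) * ((2 * n).factorial : ℝ) + (H38H.cA (2 * n) (H38H.Bad (V := Fin (2 * n))) : ℝ) := by
    intro n
    have f1 := NH_eq n
    have f2 := NHB_eq n
    have f3 := H38H.cA_split (2 * n)
    have f4 : NH n * (2 * n).factorial =
        NHB n * (2 * n).factorial + H38H.cA (2 * n) (H38H.Bad (V := Fin (2 * n))) := by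
      rw [f1, f2, f3]
    exact_mod_cast f4
  have hle : ∀ n : ℕ, (NHB n : ℝ) ≤ (NH n : ℝ) := by
    intro n
    have hf : (0 : ℝ) < ((2 * n).factorial : ℝ) := by exact_mod_cast Nat.factorial_pos _
    have h := hsplit n
    have h0 : (0 : ℝ) ≤ (H38H.cA (2 * n) (H38H.Bad (V := Fin (2 * n))) : ℝ) := Nat.cast_nonneg _
    nlinarith
  have hrate : ∀ n : ℕ, n₀ ≤ n → (NH n : ℝ) - (NHB n : ℝ) ≤ K / Real.sqrt (2 * n) * (NHB n : ℝ) ∧
      0 < (NHB n : ℝ) := by
    intro n hn
    obtain ⟨h1, h2⟩ := hcore n hn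
    have hf : (0 : ℝ) < ((2 * n).factorial : ℝ) := by exact_mod_cast Nat.factorial_pos _
    have h := hsplit n
    have h3 : (H38H.cA (2 * n) (H38H.QB (V := Fin (2 * n))) : ℝ) =
        (NHB n : ℝ) * ((2 * n).factorial : ℝ) := by
      have := NHB_eq n
      exact_mod_cast this.symm
    rw [h3] at h1 h2
    constructor
    · refine le_of_mul_le_mul_right ?_ hf
      calc ((NH n : ℝ) - (NHB n : ℝ)) * ((2 * n).factorial : ℝ)
          = (H38H.cA (2 * n) (H38H.Bad (V := Fin (2 * n))) : ℝ) := by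
            rw [sub_mul, h]
            ring
        _ ≤ K / Real.sqrt (2 * n) * ((NHB n : ℝ) * ((2 * n).factorial : ℝ)) := h2
        _ = K / Real.sqrt (2 * n) * (NHB n : ℝ) * ((2 * n).factorial : ℝ) := by ring
    · exact pos_of_mul_pos_left h1 hf.le
  constructor
  · have hlim := H38H.ratio_tendsto (fun n => (NHB n : ℝ)) (fun n => (NH n : ℝ) - (NHB n : ℝ)) K n₀
      (fun n hn => (hrate n hn).2) (fun n => by have := hle n; linarith) (fun n hn => (hrate n hn).1)
    refine hlim.congr fun n => ?_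
    rw [add_sub_cancel]
  · refine ⟨max |K| (Real.sqrt n₀), fun n hn => ?_⟩
    have hn0 : (0 : ℝ) < Real.sqrt n := by
      rw [Real.sqrt_pos]
      exact_mod_cast hn
    have hNH : (0 : ℝ) ≤ (NH n : ℝ) := Nat.cast_nonneg _
    have hNHB : (0 : ℝ) ≤ (NHB n : ℝ) := Nat.cast_nonneg _
    by_cases hn1 : n₀ ≤ n
    · have h1 := (hrate n hn1).1
      have h2 : K / Real.sqrt (2 * n) ≤ max |K| (Real.sqrt n₀) / Real.sqrt n := by
        calc K / Real.sqrt (2 * n) ≤ |K| / Real.sqrt (2 * n) := by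
              apply div_le_div_of_nonneg_right (le_abs_self K) (Real.sqrt_nonneg _)
          _ ≤ |K| / Real.sqrt n := by
              apply div_le_div_of_nonneg_left (abs_nonneg K) hn0
              apply Real.sqrt_le_sqrt
              have : (0 : ℝ) ≤ (n : ℝ) := Nat.cast_nonneg _
              linarith
          _ ≤ max |K| (Real.sqrt n₀) / Real.sqrt n :=
              div_le_div_of_nonneg_right (le_max_left _ _) hn0.le
      have h3 : 0 ≤ max |K| (Real.sqrt n₀) / Real.sqrt n := by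
        apply div_nonneg _ hn0.le
        exact le_trans (abs_nonneg K) (le_max_left _ _)
      calc (NH n : ℝ) - (NHB n : ℝ) ≤ K / Real.sqrt (2 * n) * (NHB n : ℝ) := h1
        _ ≤ max |K| (Real.sqrt n₀) / Real.sqrt n * (NHB n : ℝ) := mul_le_mul_of_nonneg_right h2 hNHB
        _ ≤ max |K| (Real.sqrt n₀) / Real.sqrt n * (NH n : ℝ) := mul_le_mul_of_nonneg_left (hle n) h3
    · have h1 : (1 : ℝ) ≤ max |K| (Real.sqrt n₀) / Real.sqrt n := by
        rw [le_div_iff₀ hn0, one_mul]
        refine le_trans ?_ (le_max_right _ _)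
        apply Real.sqrt_le_sqrt
        exact_mod_cast (by omega : n ≤ n₀)
      calc (NH n : ℝ) - (NHB n : ℝ) ≤ 1 * (NH n : ℝ) := by linarith
        _ ≤ max |K| (Real.sqrt n₀) / Real.sqrt n * (NH n : ℝ) := mul_le_mul_of_nonneg_right h1 hNH

end Pool.Agent.Results.MP_35f824_co.BridgedShare
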